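import Pool.Agent.Helper23.AC.Final

/-!
# An asymptotic-subsequential-`c_0` space none of whose infinite-dimensional subspaces is
asymptotic-`c_0`
-/

set_option autoImplicit false

namespace Pool.Agent.Results.MP_981e7e_an.NoAsymptoticC0Subspace

/-- `cof(X)`: the closed subspaces of finite codimension. -/
def Cof (X : Type*) [NormedAddCommGroup X] [NormedSpace ℝ X] : Set (Submodule ℝ X) :=
  {Y | IsClosed (Y : Set X) ∧ FiniteDimensional ℝ (X ⧸ Y)}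

/-- `ℰ_k`: the norms on `ℝ^k` for which the standard basis is normalized and monotone. -/
structure IsE (k : ℕ) (N : (Fin k → ℝ) → ℝ) : Prop where
  add : ∀ s t, N (s + t) ≤ N s + N t
  smul : ∀ (a : ℝ) (t : Fin k → ℝ), N (a • t) = |a| * N t
  pos : ∀ t, N t = 0 → t = 0
  normalized : ∀ j, N (Pi.single j 1) = 1
  monotone : ∀ (t : Fin k → ℝ) (m : ℕ), N (fun j => if (j : ℕ) < m then t j else 0) ≤ N t

/-- Two finite sequences are `C`-equivalent; `N t` and `M t` are the norms of their linear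
combinations with coefficients `t`. -/
def Equivalent {k : ℕ} (C : ℝ) (N M : (Fin k → ℝ) → ℝ) : Prop :=
  ∃ a b : ℝ, 0 < a ∧ 0 < b ∧ a * b ≤ C ∧ ∀ t, a⁻¹ * M t ≤ N t ∧ N t ≤ b * M t

/-- `∀ X₁ ∈ cof(X) ∃ x₁ ∈ S_{X₁} ∀ X₂ ∈ cof(X) ∃ x₂ ∈ S_{X₂} ... : Φ (x₁, ..., x_k)`. -/
def Game (X : Type*) [NormedAddCommGroup X] [NormedSpace ℝ X] :
    (k : ℕ) → ((Fin k → X) → Prop) → Prop
  | 0, Φ => Φ Fin.elim0
  | k + 1, Φ => ∀ Y ∈ Cof X, ∃ x ∈ Y, ‖x‖ = 1 ∧ Game X k fun y => Φ (Fin.cons x y)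

/-- The `k`-th asymptotic structure `{X}_k`. -/
def AsymptoticStructure (X : Type*) [NormedAddCommGroup X] [NormedSpace ℝ X] (k : ℕ) :
    Set ((Fin k → ℝ) → ℝ) :=
  {N | IsE k N ∧ ∀ ε : ℝ, 0 < ε →
    Game X k fun x => Equivalent (1 + ε) (fun t => ‖∑ j, t j • x j‖) N}

/-- `X` is asymptotic-`c_0` (the norm of `Fin k → ℝ` is the maximum norm, that is `ℓ_∞^k`). -/
def IsAsymptoticC0 (X : Type*) [NormedAddCommGroup X] [NormedSpace ℝ X] : Prop :=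
  ∃ c : ℝ, 1 ≤ c ∧ ∀ k, ∀ N ∈ AsymptoticStructure X k, Equivalent c N fun t => ‖t‖

/-- `X` is asymptotic-subsequential-`c_0`. -/
def IsAsymptoticSubsequentialC0 (X : Type*) [NormedAddCommGroup X] [NormedSpace ℝ X] : Prop :=
  ¬ FiniteDimensional ℝ X ∧ ∃ C : ℝ, 1 ≤ C ∧ ∀ n : ℕ, ∃ K : ℕ, ∀ N ∈ AsymptoticStructure X K,
    ∃ i : Fin n ↪o Fin K,
      Equivalent C (fun t : Fin n → ℝ => N (∑ k, t k • Pi.single (i k) 1)) fun t => ‖t‖

section

variable {X : Type*} [NormedAddCommGroup X] [NormedSpace ℝ X]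

open Pool.Agent.Helper23

lemma isE_iff {k : ℕ} {N : (Fin k → ℝ) → ℝ} : IsE k N ↔ AC.IsE k N :=
  ⟨fun h => ⟨h.add, h.smul, h.pos, h.normalized, h.monotone⟩,
    fun h => ⟨h.add, h.smul, h.pos, h.normalized, h.monotone⟩⟩

lemma game_iff {k : ℕ} {Φ : (Fin k → X) → Prop} : Game X k Φ ↔ AC.Game X k Φ := by
  induction k with
  | zero => exact Iff.rfl
  | succ k ih =>
    constructor
    · intro h Y hY
      obtain ⟨x, h1, h2, h3⟩ := h Y hY
      exact ⟨x, h1, h2, ih.1 h3⟩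
    · intro h Y hY
      obtain ⟨x, h1, h2, h3⟩ := h Y hY
      exact ⟨x, h1, h2, ih.2 h3⟩

lemma mem_iff {k : ℕ} {N : (Fin k → ℝ) → ℝ} :
    N ∈ AsymptoticStructure X k ↔ N ∈ AC.AsymStruct X k := by
  constructor
  · rintro ⟨h1, h2⟩
    exact ⟨isE_iff.1 h1, fun ε hε => game_iff.1 (h2 ε hε)⟩
  · rintro ⟨h1, h2⟩
    exact ⟨isE_iff.2 h1, fun ε hε => game_iff.2 (h2 ε hε)⟩

end

/-- **Negative answer to Q1**: there is an infinite-dimensional asymptotic-subsequential-`c_0`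
Banach space none of whose infinite-dimensional subspaces is asymptotic-`c_0`. -/
theorem result : ∃ (X : Type) (_ : NormedAddCommGroup X) (_ : NormedSpace ℝ X)
    (_ : CompleteSpace X), ¬ FiniteDimensional ℝ X ∧ IsAsymptoticSubsequentialC0 X ∧
      ∀ Y : Submodule ℝ X, IsClosed (Y : Set X) → ¬ FiniteDimensional ℝ Y →
        ¬ IsAsymptoticC0 Y := by
  obtain ⟨X, i1, i2, i3, h1, h2⟩ := Pool.Agent.Helper23.AC.final
  refine ⟨X, i1, i2, i3, h1.1, ⟨h1.1, ?_⟩, fun Y hY hd hc => h2 Y hY hd ?_⟩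
  · obtain ⟨C, hC, h⟩ := h1.2
    refine ⟨C, hC, fun n => ?_⟩
    obtain ⟨K, hK⟩ := h n
    exact ⟨K, fun N hN => hK N (mem_iff.1 hN)⟩
  · obtain ⟨c, hc1, h⟩ := hc
    exact ⟨c, hc1, fun k N hN => h k N (mem_iff.2 hN)⟩

end Pool.Agent.Results.MP_981e7e_an.NoAsymptoticC0Subspace
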